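import Pool.Agent.MP_ff6aad_an.Main

set_option autoImplicit false

namespace Pool.Agent.Results.MP_ff6aad_an.FarFromReducible

open Pool.Agent.MP_ff6aad_an

/-- an orthonormal basis of a separable space is countable -/
theorem countable_index {ι H : Type*} [NormedAddCommGroup H] [InnerProductSpace ℂ H]
    [TopologicalSpace.SeparableSpace H] (b : HilbertBasis ι ℂ H) : Countable ι := by
  apply Pairwise.countable_of_isOpen_disjoint (s := fun i => Metric.ball (b i) (1 / 2))
  · intro i j hij
    apply Metric.ball_disjoint_ball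
    have h1 : ‖b i - b j‖ ^ 2 = 2 := by
      have h := norm_sub_sq (𝕜 := ℂ) (b i) (b j)
      rw [b.orthonormal.1 i, b.orthonormal.1 j, b.orthonormal.2 hij] at h
      rw [h]
      norm_num
    rw [dist_eq_norm]
    nlinarith [norm_nonneg (b i - b j)]
  · intro i
    exact Metric.isOpen_ball
  · intro i
    exact ⟨b i, Metric.mem_ball_self (by norm_num)⟩

/-- a separable infinite-dimensional space has an orthonormal basis indexed by any countably
infinite type -/
theorem exists_hb {ι : Type*} [Countable ι] [Infinite ι] (H : Type*) [NormedAddCommGroup H]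
    [InnerProductSpace ℂ H] [CompleteSpace H] [TopologicalSpace.SeparableSpace H]
    (hH : ¬ FiniteDimensional ℂ H) : Nonempty (HilbertBasis ι ℂ H) := by
  obtain ⟨w, b, hb⟩ := exists_hilbertBasis ℂ H
  have : Countable w := countable_index b
  have : Infinite w := by
    by_contra hfin
    rw [not_infinite_iff_finite] at hfin
    have := Fintype.ofFinite w
    exact hH (b.toOrthonormalBasis.toBasis.finiteDimensional_of_finite)
  obtain ⟨e⟩ := nonempty_equiv_of_countable (α := ι) (β := w)
  refine ⟨HilbertBasis.mk (v := fun i => b (e i)) (b.orthonormal.comp e e.injective) ?_⟩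
  have h1 : Set.range (fun i => b (e i)) = Set.range b := e.surjective.range_comp b
  rw [h1, b.dense_span]

/-- On every separable infinite-dimensional complex Hilbert space there is a finite operator `A`,
with a singular state which vanishes on all commutators `A X - X A`, such that no bounded `F` of
norm less than `1 / 2000000` (of finite rank or not) makes `A - F` have a nonzero finite-dimensional
reducing subspace. -/
theorem result (H : Type*) [NormedAddCommGroup H] [InnerProductSpace ℂ H] [CompleteSpace H]
    [TopologicalSpace.SeparableSpace H] (hH : ¬ FiniteDimensional ℂ H) :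
    ∃ A : H →L[ℂ] H,
      (∃ f : (H →L[ℂ] H) →L[ℂ] ℂ, f 1 = 1 ∧ ‖f‖ = 1 ∧
        (∀ X : H →L[ℂ] H, f (A * X - X * A) = 0) ∧
        (∀ K : H →L[ℂ] H, IsCompactOperator K → f K = 0)) ∧
      ∀ F : H →L[ℂ] H, ‖F‖ < 1 / 2000000 →
        ¬ ∃ M : Submodule ℂ H, M ≠ ⊥ ∧ FiniteDimensional ℂ M ∧
          (∀ x ∈ M, (A - F) x ∈ M) ∧
          (∀ x ∈ M, (ContinuousLinearMap.adjoint (A - F)) x ∈ M) := by
  let e : HilbertBasis Idx ℂ (lp (fun _ : Idx => ℂ) 2) :=
    HilbertBasis.ofRepr (LinearIsometryEquiv.refl ℂ _)
  have : Infinite Idx := Infinite.of_injective (fun n : ℕ => (⟨n, 0⟩ : Idx)) (by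
    intro n m h
    exact congrArg Sigma.fst h)
  have : ∀ n, Countable (ZMod (NN n)) := fun n => Finite.to_countable
  obtain ⟨k⟩ := exists_hb (ι := Fin 5 × Idx) H hH
  refine ⟨theOp e k, theOp_state e k, ?_⟩
  rintro F hF ⟨M, hM, hMf, h1, h2⟩
  exact theOp_noproj e k F hF M hM hMf h1 h2

end Pool.Agent.Results.MP_ff6aad_an.FarFromReducible
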